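import Pool.Agent.Helper62.ZE.Om

/-!
# ZE, explicit layer: `pow_omega_leU` of FrameU
-/

set_option autoImplicit false

namespace Pool.Agent.Helper62.ZE

open Finset

theorem pow_omega_leU : ∃ D : ℕ, ∀ (B : ℕ) (L : ℝ) (N : ℕ), 1 ≤ B → 1 ≤ L → ((B + 1 : ℕ) : ℝ) ^ (D * B) ≤ Real.log L →
    N ≠ 0 → (∏ p ∈ N.primeFactors, p : ℕ) ≤ L ^ B → ((16 * B : ℕ) : ℝ) ^ N.primeFactors.card ≤ L ^ (1 / 8 : ℝ) := by
  refine ⟨80, fun B L N hB hL h hN hrad => ?_⟩
  have hB0 : (1 : ℝ) ≤ B := by exact_mod_cast hB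
  have hB1 : (0 : ℝ) < (B : ℝ) + 1 := by linarith
  have hpos : (0 : ℝ) < ((B + 1 : ℕ) : ℝ) ^ (80 * B) := by positivity
  have hlam : 0 < Real.log L := hpos.trans_le h
  have hL1 : 1 < L := by
    rcases lt_or_eq_of_le hL with h1 | h1
    · exact h1
    · rw [← h1, Real.log_one] at hlam; exact absurd hlam (lt_irrefl _)
  have hll : 80 * B * Real.log ((B : ℝ) + 1) ≤ Real.log (Real.log L) := by
    have h1 := Real.log_le_log hpos h
    rw [Real.log_pow] at h1
    push_cast at h1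
    exact h1
  refine pow_omega (16 * B) B (by omega) N L hL1 hrad ?_
  set w := Real.log ((B : ℝ) + 1) with hw
  have hw2 : Real.log 2 ≤ w := Real.log_le_log (by norm_num) (by linarith)
  have hw0 : 0 < w := lt_of_lt_of_le (Real.log_pos (by norm_num)) hw2
  have hy : Real.log ((16 * B : ℕ) : ℝ) ≤ 5 * w := by
    push_cast
    rw [Real.log_mul (by norm_num) (by positivity)]
    have h1 : Real.log (16 : ℝ) = 4 * Real.log 2 := by
      rw [show (16 : ℝ) = 2 ^ 4 by norm_num, Real.log_pow]; norm_num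
    have h2 : Real.log (B : ℝ) ≤ w := Real.log_le_log (by linarith) (by linarith)
    linarith
  have hy0 : 0 < Real.log ((16 * B : ℕ) : ℝ) := Real.log_pos (by push_cast; linarith)
  have h8 : Real.log (8 * Real.log ((16 * B : ℕ) : ℝ)) + 1 ≤ 8 * Real.log ((16 * B : ℕ) : ℝ) := by
    have := Real.log_le_sub_one_of_pos (x := 8 * Real.log ((16 * B : ℕ) : ℝ)) (by positivity)
    linarith
  have h9 : 8 * (B : ℝ) * Real.log ((16 * B : ℕ) : ℝ) ≤ 8 * B * (5 * w) := by gcongr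
  have h10 : w ≤ B * w := by nlinarith
  nlinarith

end Pool.Agent.Helper62.ZE
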