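import Mathlib

/-!
# ZE, explicit layer: the form with `ε` follows from the explicit form
-/

set_option autoImplicit false

namespace Pool.Agent.Helper62.ZE

open Finset

/-- The exponent tends to `0`. -/
theorem exponent_le (C ε N : ℝ) (hC : 0 < C) (hε : 0 < ε)
    (hN : Real.exp (Real.exp ((2 * C / ε) ^ 2)) ≤ N) :
    C * Real.log (Real.log (Real.log N)) / Real.log (Real.log N) ≤ ε := by
  have hN0 : 0 < N := (Real.exp_pos _).trans_le hN
  have h1 : Real.exp ((2 * C / ε) ^ 2) ≤ Real.log N := by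
    rw [Real.le_log_iff_exp_le hN0]; exact hN
  have hl0 : 0 < Real.log N := (Real.exp_pos _).trans_le h1
  have h2 : (2 * C / ε) ^ 2 ≤ Real.log (Real.log N) := by
    rw [Real.le_log_iff_exp_le hl0]; exact h1
  set y := Real.log (Real.log N) with hy
  have hy0 : 0 < y := lt_of_lt_of_le (by positivity) h2
  have hs0 : 0 < Real.sqrt y := Real.sqrt_pos.mpr hy0
  have h3 : Real.log y ≤ 2 * Real.sqrt y := by
    have h4 := Real.log_le_sub_one_of_pos hs0
    rw [Real.log_sqrt hy0.le] at h4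
    linarith
  have h5 : 2 * C / ε ≤ Real.sqrt y := by
    exact Real.le_sqrt_of_sq_le h2
  have h6 : 2 * C ≤ ε * Real.sqrt y := by
    rw [div_le_iff₀ hε] at h5; linarith
  rw [div_le_iff₀ hy0]
  have h7 : Real.sqrt y * Real.sqrt y = y := Real.mul_self_sqrt hy0.le
  calc C * Real.log y ≤ C * (2 * Real.sqrt y) := by gcongr
    _ = 2 * C * Real.sqrt y := by ring
    _ ≤ ε * Real.sqrt y * Real.sqrt y := by gcongr
    _ = ε * y := by rw [mul_assoc, h7]

/-- The exponent is bounded. -/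
theorem exponent_le' (C N : ℝ) (hC : 0 < C) (hN : 16 ≤ N) :
    C * Real.log (Real.log (Real.log N)) / Real.log (Real.log N) ≤ C := by
  have hl : 1 < Real.log N := by
    rw [Real.lt_log_iff_exp_lt (by linarith)]
    have := Real.exp_one_lt_d9
    linarith
  have hy0 : 0 < Real.log (Real.log N) := Real.log_pos hl
  rw [div_le_iff₀ hy0]
  have h1 := Real.log_le_sub_one_of_pos hy0
  exact mul_le_mul_of_nonneg_left (by linarith) hC.le

/-- The form with `ε`. -/
theorem eps_of (h : ∃ C : ℝ, 0 < C ∧ ∀ a b : ℕ, 0 < a → 0 < b → a.Coprime b → ∀ N : ℝ,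
      N = max 16 ((∏ p ∈ (a * b * (a + b)).primeFactors, p : ℕ) : ℝ) →
      Real.log (a + b : ℕ) ≤ N ^ (C * Real.log (Real.log (Real.log N)) / Real.log (Real.log N)))
    (ε : ℝ) (hε : 0 < ε) :
    ∃ K : ℝ, 0 < K ∧ ∀ a b : ℕ, 0 < a → 0 < b → a.Coprime b →
      Real.log (a + b : ℕ) ≤ K * ((∏ p ∈ (a * b * (a + b)).primeFactors, p : ℕ) : ℝ) ^ ε := by
  obtain ⟨C, hC, h⟩ := h
  set N0 : ℝ := Real.exp (Real.exp ((2 * C / ε) ^ 2)) with hN0
  have hN00 : 0 < N0 := Real.exp_pos _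
  refine ⟨(16 : ℝ) ^ ε + N0 ^ C, by positivity, fun a b ha hb hab => ?_⟩
  have h1 := h a b ha hb hab _ rfl
  set R : ℝ := ((∏ p ∈ (a * b * (a + b)).primeFactors, p : ℕ) : ℝ) with hR
  have hR1 : 1 ≤ R := by
    have : 0 < (∏ p ∈ (a * b * (a + b)).primeFactors, p : ℕ) :=
      Finset.prod_pos fun p hp => (Nat.prime_of_mem_primeFactors hp).pos
    rw [hR]; exact_mod_cast this
  set N : ℝ := max 16 R with hNd
  have hN16 : 16 ≤ N := le_max_left _ _
  have hN1 : 1 ≤ N := by linarith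
  have hN16R : N ≤ 16 * R := by
    rw [hNd, max_le_iff]; constructor <;> linarith
  have hRε : 1 ≤ R ^ ε := Real.one_le_rpow hR1 hε.le
  rcases le_total N0 N with h2 | h2
  · have h3 := exponent_le C ε N hC hε h2
    calc Real.log (a + b : ℕ) ≤ _ := h1
      _ ≤ N ^ ε := Real.rpow_le_rpow_of_exponent_le hN1 h3
      _ ≤ (16 * R) ^ ε := Real.rpow_le_rpow (by linarith) hN16R hε.le
      _ = 16 ^ ε * R ^ ε := Real.mul_rpow (by norm_num) (by linarith)
      _ ≤ (16 ^ ε + N0 ^ C) * R ^ ε := by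
        have : 0 ≤ N0 ^ C * R ^ ε := by positivity
        linarith
  · have h3 := exponent_le' C N hC hN16
    calc Real.log (a + b : ℕ) ≤ _ := h1
      _ ≤ N ^ C := Real.rpow_le_rpow_of_exponent_le hN1 h3
      _ ≤ N0 ^ C := Real.rpow_le_rpow (by linarith) h2 hC.le
      _ = N0 ^ C * 1 := by ring
      _ ≤ N0 ^ C * R ^ ε := by gcongr
      _ ≤ (16 ^ ε + N0 ^ C) * R ^ ε := by
        have : 0 ≤ (16 : ℝ) ^ ε * R ^ ε := by positivity
        linarith

end Pool.Agent.Helper62.ZE
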