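import Mathlib

/-!
# ZE, explicit layer: the number of the prime factors, uniform version
-/

set_option autoImplicit false

namespace Pool.Agent.Helper62.ZE

open Finset

private lemma omega_fact (S : Finset ℕ) : (∀ x ∈ S, 1 ≤ x) → S.card.factorial ≤ ∏ p ∈ S, p := by
  induction S using Finset.induction_on_max with
  | empty => intro _; simp
  | insert a s hs ih =>
    intro h
    have ha : a ∉ s := fun ha => lt_irrefl a (hs a ha)
    rw [Finset.card_insert_of_notMem ha, Finset.prod_insert ha, Nat.factorial_succ]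
    have h1 : s.card + 1 ≤ a := by
      have hsub : s ⊆ Finset.Ico 1 a := by
        intro x hx
        rw [Finset.mem_Ico]
        exact ⟨h x (Finset.mem_insert_of_mem hx), hs x hx⟩
      have h2 := Finset.card_le_card hsub
      rw [Nat.card_Ico] at h2
      have h3 := h a (Finset.mem_insert_self _ _)
      omega
    exact Nat.mul_le_mul h1 (ih fun x hx => h x (Finset.mem_insert_of_mem hx))

/-- `s log s ≤ s + z` for the number `s` of the prime factors, if `log rad ≤ z`. -/
theorem omega_log (N : ℕ) (z : ℝ) (hz : Real.log (∏ p ∈ N.primeFactors, p : ℕ) ≤ z)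
    (hs : 0 < N.primeFactors.card) :
    (N.primeFactors.card : ℝ) * Real.log N.primeFactors.card ≤ N.primeFactors.card + z := by
  set s := N.primeFactors.card with hsd
  have hs0 : (0 : ℝ) < s := by exact_mod_cast hs
  have hR : 0 < (∏ p ∈ N.primeFactors, p : ℕ) :=
    Finset.prod_pos fun p hp => (Nat.prime_of_mem_primeFactors hp).pos
  have hR0 : (0 : ℝ) < ((∏ p ∈ N.primeFactors, p : ℕ) : ℝ) := by exact_mod_cast hR
  have h1 : (s.factorial : ℝ) ≤ ((∏ p ∈ N.primeFactors, p : ℕ) : ℝ) := by
    have h2 : s.factorial ≤ ∏ p ∈ N.primeFactors, p :=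
      omega_fact _ fun x hx => (Nat.prime_of_mem_primeFactors hx).one_lt.le
    exact_mod_cast h2
  have h2 : (s : ℝ) ^ s / s.factorial ≤ Real.exp s :=
    Real.pow_div_factorial_le_exp (s : ℝ) hs0.le s
  have hf0 : (0 : ℝ) < s.factorial := by exact_mod_cast s.factorial_pos
  have h3 : (s : ℝ) ^ s ≤ Real.exp s * ((∏ p ∈ N.primeFactors, p : ℕ) : ℝ) := by
    rw [div_le_iff₀ hf0] at h2
    exact h2.trans (mul_le_mul_of_nonneg_left h1 (Real.exp_pos _).le)
  have h5 := Real.log_le_log (pow_pos hs0 s) h3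
  rw [Real.log_pow, Real.log_mul (Real.exp_pos _).ne' hR0.ne', Real.log_exp] at h5
  linarith

/-- `K ^ ω(N) ≤ L ^ (1 / 8)` if `rad N ≤ L ^ B` and `log log L` is large in terms of `B` and `K`. -/
theorem pow_omega (K B : ℕ) (hK : 2 ≤ K) (N : ℕ) (L : ℝ) (hL : 1 < L)
    (h : ((∏ p ∈ N.primeFactors, p : ℕ) : ℝ) ≤ L ^ B)
    (hbig : 8 * B * Real.log K + Real.log (8 * Real.log K) + 1 ≤ Real.log (Real.log L)) :
    (K : ℝ) ^ N.primeFactors.card ≤ L ^ (1 / 8 : ℝ) := by
  set s := N.primeFactors.card with hsd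
  have hL0 : (0 : ℝ) < L := by linarith
  set lam := Real.log L with hlam
  have hlam0 : 0 < lam := Real.log_pos hL
  have hK1 : (2 : ℝ) ≤ K := by exact_mod_cast hK
  set k := Real.log (K : ℝ) with hk
  have hk0 : 0 < k := Real.log_pos (by linarith)
  by_contra hcon
  push Not at hcon
  have h1 : (1 / 8 : ℝ) * lam < s * k := by
    have h2 := Real.log_lt_log (Real.rpow_pos_of_pos hL0 _) hcon
    rw [Real.log_rpow hL0, Real.log_pow] at h2
    exact h2
  have hs : 0 < s := by
    rcases Nat.eq_zero_or_pos s with h2 | h2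
    · rw [h2] at h1
      simp only [Nat.cast_zero, zero_mul] at h1
      linarith
    · exact h2
  have hs0 : (0 : ℝ) < s := by exact_mod_cast hs
  have hR : 0 < (∏ p ∈ N.primeFactors, p : ℕ) :=
    Finset.prod_pos fun p hp => (Nat.prime_of_mem_primeFactors hp).pos
  have hR0 : (0 : ℝ) < ((∏ p ∈ N.primeFactors, p : ℕ) : ℝ) := by exact_mod_cast hR
  have h2 : Real.log ((∏ p ∈ N.primeFactors, p : ℕ) : ℝ) ≤ B * lam := by
    have h3 := Real.log_le_log hR0 h
    rw [Real.log_pow] at h3
    exact h3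
  have h3 := omega_log N (B * lam) h2 hs
  rw [← hsd] at h3
  -- `s > lam / (8 k)`
  have h4 : lam / (8 * k) < s := by
    rw [div_lt_iff₀ (by positivity)]
    nlinarith
  have h5 : Real.log lam - Real.log (8 * k) ≤ Real.log s := by
    have h6 := Real.log_le_log (by positivity) h4.le
    rwa [Real.log_div hlam0.ne' (by positivity)] at h6
  have h6 : 8 * B * k ≤ Real.log s - 1 := by linarith
  have h7 : (s : ℝ) * (8 * B * k) ≤ B * lam := by
    calc (s : ℝ) * (8 * B * k) ≤ s * (Real.log s - 1) := mul_le_mul_of_nonneg_left h6 hs0.le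
      _ = s * Real.log s - s := by ring
      _ ≤ B * lam := by linarith
  rcases Nat.eq_zero_or_pos B with hB | hB
  · -- `B = 0`: `rad N ≤ 1`
    rw [hB, pow_zero] at h
    have h8 : (∏ p ∈ N.primeFactors, p : ℕ) ≤ 1 := by exact_mod_cast h
    have h9 : s.factorial ≤ ∏ p ∈ N.primeFactors, p :=
      omega_fact _ fun x hx => (Nat.prime_of_mem_primeFactors hx).one_lt.le
    obtain ⟨p, hp⟩ := Finset.card_pos.mp hs
    have h10 : p ≤ ∏ p ∈ N.primeFactors, p :=
      Nat.le_of_dvd hR (Finset.dvd_prod_of_mem _ hp)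
    have h11 := (Nat.prime_of_mem_primeFactors hp).two_le
    omega
  · have hB0 : (0 : ℝ) < B := by exact_mod_cast hB
    have h8 : (s : ℝ) * (8 * k) ≤ lam := by
      have : (B : ℝ) * (s * (8 * k)) ≤ B * lam := by linarith
      exact le_of_mul_le_mul_left this hB0
    linarith

end Pool.Agent.Helper62.ZE
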